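import Pool.Agent.H3.VsC

open Polynomial

namespace Pool.Agent.Results.MP_27c522_an.Zeros

/-- `p_n(z) = ∑_{k=0}^n (-1)^k (2k+1) z^(k(k+1))`. -/
noncomputable def p (n : ℕ) : ℝ[X] :=
  ∑ k ∈ Finset.range (n + 1), C ((-1 : ℝ) ^ k * (2 * k + 1)) * X ^ (k * (k + 1))

theorem result (n : ℕ) (hn : Odd n) (h3 : 3 ≤ n) :
    {x : ℝ | (p n).eval x = 0}.ncard = 2 ∧ Multiset.card (p n).roots = 2 := by
  obtain ⟨m, rfl⟩ := hn
  obtain ⟨x, hx, hr⟩ := Pool.Agent.H3.Vs.odd_case m (by omega)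
  have e : p (2 * m + 1) = Pool.Agent.H3.Vs.pp (2 * m + 1) :=
    Finset.sum_congr rfl fun k _ => by rw [show k * (k + 1) = k ^ 2 + k by ring]
  rw [← e] at hr
  have h0 : p (2 * m + 1) ≠ 0 := by
    intro h0
    rw [h0, roots_zero] at hr
    have := congrArg Multiset.card hr
    simp at this
  refine ⟨?_, by rw [hr]; rfl⟩
  have : {x : ℝ | (p (2 * m + 1)).eval x = 0} = {x, -x} := by
    ext y
    rw [Set.mem_setOf_eq, ← IsRoot.def, ← mem_roots h0, hr]
    simp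
  rw [this]
  exact Set.ncard_pair (by linarith)

end Pool.Agent.Results.MP_27c522_an.Zeros
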